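import Pool.Agent.Helper21.FX.S
import Pool.Agent.Helper60.FU.RowR
import Pool.Agent.Helper55.FX.RowM

/-!
MP_c75db0, Plan W, the invariance items in the fused machine: row B, the block in the frame of the target.
-/

set_option autoImplicit false
noncomputable section
namespace Pool.Agent.Helper21.FX

open Matrix
open Pool.Agent.Helper90.KMT (PT)
open Pool.Agent.Helper82.FRD (jr ouR)
open Pool.Agent.Helper91.FU
open Pool.Agent.Helper6.MONO (V3)
open Pool.Agent.Helper6.MONO.W2 (Mt)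

variable {t : ℕ → ℝ}

namespace RB

/-! ### entries -/

theorem ng3_ok {v : V3} {x : F3} (h : VO t v x) : VO t (-v) (ng3 x) :=
  ⟨h.a.neg (by norm_num), h.b.neg (by norm_num), h.c.neg (by norm_num)⟩

theorem jF_ok {v : V3} {x : F3} (h : VO t v x) : VO t (jr v) (jF x) :=
  ⟨h.a.cj (by norm_num), h.b.cj (by norm_num), (h.c.cj (by norm_num)).neg (by norm_num)⟩

/-- `b + y z` -/
theorem e1 (hP : PT 3 t) {b y z : ℂ} {B Y Z : FP} (hb : FV 1 t b B) (hy : FV 1 t y Y)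
    (hz : FV 1 t z Z) {f : ℂ} (e : b + y * z = f) :
    FV 1 t f (rndR (addR (lifR B) (mulR Y Z))) :=
  (FV.rnd hP ((RV.lif hb (by norm_num)).add (RV.mul hP hy hz (by norm_num) (by norm_num)))
    (by norm_num)).congr e
/-- `y z + b t` -/
theorem e2 (hP : PT 3 t) {b y z s : ℂ} {B Y Z S : FP} (hy : FV 1 t y Y) (hz : FV 1 t z Z)
    (hb : FV 1 t b B) (hs : FV 1 t s S) {f : ℂ} (e : y * z + b * s = f) :
    FV 1 t f (rndR (yz Y Z B S)) :=
  (FV.rnd hP ((RV.mul hP hy hz (by norm_num) (by norm_num)).add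
    (RV.muls hP hb hs (by norm_num) (by norm_num))) (by norm_num)).congr e
/-- `y z + y' z' + b t` -/
theorem e3 (hP : PT 3 t) {b y z y' z' s : ℂ} {B Y Z Y' Z' S : FP} (hy : FV 1 t y Y)
    (hz : FV 1 t z Z) (hy' : FV 1 t y' Y') (hz' : FV 1 t z' Z') (hb : FV 1 t b B)
    (hs : FV 1 t s S) {f : ℂ} (e : y * z + y' * z' + b * s = f) :
    FV 1 t f (y2 Y Z Y' Z' B S) :=
  (FV.rnd hP (((RV.mul hP hy hz (by norm_num) (by norm_num)).add
    (RV.mul hP hy' hz' (by norm_num) (by norm_num))).add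
    (RV.muls hP hb hs (by norm_num) (by norm_num))) (by norm_num)).congr e
/-- `s + v e` -/
theorem e4 (hP : PT 3 t) {c : ℕ} (hc : c ≤ 4) {s v e : ℂ} {S V E : FP} (hs : FV 1 t s S)
    (hv : FV 1 t v V) (he : FV c t e E) {f : ℂ} (h : s + v * e = f) : FV 1 t f (svF S E V) :=
  (FV.rnd hP ((RV.lif hs (by norm_num)).add (RV.muls hP hv he (by norm_num) hc))
    (by omega)).congr h

/-! ### the blocks -/

/-- an entry of `B (x z^T)` -/
theorem mo (B : Mt) (x z : V3) (i j : Fin 3) : (B * ouR x z) i j = B.mulVec x i * z j := by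
  rw [Matrix.mul_apply]
  simp only [Fin.sum_univ_three, ouR, Matrix.of_apply, Matrix.mulVec, dotProduct]
  ring

end RB
open RB

theorem bcF_ok (hP : PT 3 t) {B : Mt} {X : F9} (hB : MO t B X) {v : V3} {V : F3}
    (hv : VO t v V) : MO t (B * (-ouR v (jr v) + 1)) (bcF X V) := by
  have hy := ng3_ok (mv_ok hP hB hv)
  have hz := jF_ok hv
  have e : ∀ i j, B i j + (-(B.mulVec v)) i * jr v j = (B * (-ouR v (jr v) + 1)) i j := by
    intro i j
    rw [Matrix.mul_add, Matrix.mul_one, Matrix.mul_neg, Matrix.add_apply, Matrix.neg_apply, mo,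
      Pi.neg_apply]
    ring
  exact ⟨e1 hP hB.a hy.a hz.a (e 0 0), e1 hP hB.b hy.a hz.b (e 0 1), e1 hP hB.c hy.a hz.c (e 0 2),
    e1 hP hB.d hy.b hz.a (e 1 0), e1 hP hB.e hy.b hz.b (e 1 1), e1 hP hB.f hy.b hz.c (e 1 2),
    e1 hP hB.g hy.c hz.a (e 2 0), e1 hP hB.h hy.c hz.b (e 2 1), e1 hP hB.i hy.c hz.c (e 2 2)⟩

theorem bnF_ok (hP : PT 3 t) {B C : Mt} {X D : F9} (hB : MO t B X) (hD : MO t (B * C) D)
    {x s : V3} {τ : ℂ} {Q : QN} (hx : VO t x Q.x) (hs : VO t s Q.s) (ht : FV 1 t τ Q.t) :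
    MO t (B * (ouR x (jr s) - τ • C)) (bnF X D Q) := by
  have hy := mv_ok hP hB hx
  have hz := jF_ok hs
  have h := ht.neg (by norm_num)
  have e : ∀ i j, B.mulVec x i * jr s j + (B * C) i j * (-τ) = (B * (ouR x (jr s) - τ • C)) i j := by
    intro i j
    rw [Matrix.mul_sub, Matrix.mul_smul, Matrix.sub_apply, Matrix.smul_apply, mo, smul_eq_mul]
    ring
  exact ⟨e2 hP hy.a hz.a hD.a h (e 0 0), e2 hP hy.a hz.b hD.b h (e 0 1),
    e2 hP hy.a hz.c hD.c h (e 0 2), e2 hP hy.b hz.a hD.d h (e 1 0), e2 hP hy.b hz.b hD.e h (e 1 1),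
    e2 hP hy.b hz.c hD.f h (e 1 2), e2 hP hy.c hz.a hD.g h (e 2 0), e2 hP hy.c hz.b hD.h h (e 2 1),
    e2 hP hy.c hz.c hD.i h (e 2 2)⟩

theorem bmF_ok (hP : PT 3 t) {B C : Mt} {X D : F9} (hB : MO t B X) (hD : MO t (B * C) D)
    {x s x' s' : V3} {τ : ℂ} {P Q : QN} {T : FP} (hx : VO t x P.x) (hs : VO t s P.s)
    (hx' : VO t x' Q.x) (hs' : VO t s' Q.s) (ht : FV 1 t τ T) :
    MO t (B * (ouR x (jr s') + ouR x' (jr s) - τ • C)) (bmF X D P Q T) := by
  have hy := mv_ok hP hB hx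
  have hy' := mv_ok hP hB hx'
  have hz := jF_ok hs'
  have hz' := jF_ok hs
  have h := ht.neg (by norm_num)
  have e : ∀ i j, B.mulVec x i * jr s' j + B.mulVec x' i * jr s j + (B * C) i j * (-τ) =
      (B * (ouR x (jr s') + ouR x' (jr s) - τ • C)) i j := by
    intro i j
    rw [Matrix.mul_sub, Matrix.mul_add, Matrix.mul_smul, Matrix.sub_apply, Matrix.add_apply,
      Matrix.smul_apply, mo, mo, smul_eq_mul]
    ring
  exact ⟨e3 hP hy.a hz.a hy'.a hz'.a hD.a h (e 0 0), e3 hP hy.a hz.b hy'.a hz'.b hD.b h (e 0 1),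
    e3 hP hy.a hz.c hy'.a hz'.c hD.c h (e 0 2), e3 hP hy.b hz.a hy'.b hz'.a hD.d h (e 1 0),
    e3 hP hy.b hz.b hy'.b hz'.b hD.e h (e 1 1), e3 hP hy.b hz.c hy'.b hz'.c hD.f h (e 1 2),
    e3 hP hy.c hz.a hy'.c hz'.a hD.g h (e 2 0), e3 hP hy.c hz.b hy'.c hz'.b hD.h h (e 2 1),
    e3 hP hy.c hz.c hy'.c hz'.c hD.i h (e 2 2)⟩

namespace RB
/-- the columns -/
theorem bd_ok (hP : PT 3 t) {B : Mt} {X : F9} (hB : MO t B X) {p : ℂ} {P : FP}
    (hp : FV 1 t p P) : MO t (B * Matrix.diagonal ![p, star p, 1]) (bd X P (cjF P)) := by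
  have h' := hp.cj (by norm_num)
  have k : ∀ {b q f : ℂ} {x y : FP}, FV 1 t b x → FV 1 t q y → b * q = f →
      FV 1 t f (rndR (mulR x y)) := fun hb hq e =>
    (FV.rnd hP (RV.mul hP hb hq (by norm_num) (by norm_num)) (by norm_num)).congr e
  have e0 : ∀ i, B i 0 * p = (B * Matrix.diagonal ![p, star p, 1]) i 0 := fun i => by
    rw [Matrix.mul_diagonal]
    rfl
  have e1 : ∀ i, B i 1 * star p = (B * Matrix.diagonal ![p, star p, 1]) i 1 := fun i => by
    rw [Matrix.mul_diagonal]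
    rfl
  have e2 : ∀ i, B i 2 = (B * Matrix.diagonal ![p, star p, 1]) i 2 := fun i => by
    rw [Matrix.mul_diagonal]
    exact (mul_one _).symm
  unfold bd
  exact ⟨k hB.a hp (e0 0), k hB.b h' (e1 0), hB.c.congr (e2 0), k hB.d hp (e0 1),
    k hB.e h' (e1 1), hB.f.congr (e2 1), k hB.g hp (e0 2), k hB.h h' (e1 2), hB.i.congr (e2 2)⟩

end RB
open RB

theorem brF_ok (hP : PT 3 t) {B : Mt} {X : F9} (hB : MO t B X) {v : V3} {V : F3}
    (hv : VO t v V) {p : ℂ} {P : FP} (hp : FV 1 t p P) :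
    MO t (B * Matrix.diagonal ![p, star p, 1] * (-ouR v (jr v) + 1)) (brF X V P) :=
  bcF_ok hP (bd_ok hP hB hp) hv

/-! ### the data of a run -/

namespace RB
/-- `s + e v` -/
theorem sv3_ok (hP : PT 3 t) {c : ℕ} (hc : c ≤ 4) {s v : V3} {S V : F3} (hs : VO t s S)
    (hv : VO t v V) {e : ℂ} {E : FP} (he : FV c t e E) {f : V3} (h : f = s + e • v) :
    VO t f (sv3 S V E) := by
  have k : ∀ i, s i + v i * e = f i := fun i => by
    rw [h, Pi.add_apply, Pi.smul_apply, smul_eq_mul, mul_comm]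
  exact ⟨e4 hP hc hs.a hv.a he (k 0), e4 hP hc hs.b hv.b he (k 1), e4 hP hc hs.c hv.c he (k 2)⟩

end RB
open RB

/-- the data of a run -/
theorem qN_ok (hP : PT 3 t) {v s : V3} {V S : F3} (hv : VO t v V) (hs : VO t s S) {w r : ℝ}
    {W R : FP} (hw : FV 1 t (w : ℂ) W) (hr : FV 1 t (r : ℂ) R) :
    VO t (s - (r : ℂ) • v) (qN V S W R).x ∧ VO t (s - ((w - r : ℝ) : ℂ) • v) (qN V S W R).s ∧
      FV 1 t ((w + r * (r - w) : ℝ) : ℂ) (qN V S W R).t := by
  have he := hr.sub hw (by norm_num)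
  refine ⟨sv3_ok hP (by norm_num) hs hv (hr.neg (by norm_num)) ?_,
    sv3_ok hP (by norm_num) hs hv he ?_, ?_⟩
  · rw [neg_smul, sub_eq_add_neg]
  · rw [sub_eq_add_neg, ← neg_smul]
    congr 2
    push_cast
    ring
  · refine (FV.rnd hP ((RV.lif hw (by norm_num)).add (RV.muls hP hr he (by norm_num)
      (by norm_num))) (by norm_num)).congr ?_
    push_cast
    ring

theorem t2W_ok (hP : PT 3 t) {w r r' : ℝ} {W R R' : FP} (hw : FV 1 t (w : ℂ) W)
    (hr : FV 1 t (r : ℂ) R) (hr' : FV 1 t (r' : ℂ) R') :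
    FV 1 t ((2 * w + r * (r' - w) + r' * (r - w) : ℝ) : ℂ) (t2W W R (subF R W) R' (subF R' W)) := by
  refine (FV.rnd hP ((RV.lif (hw.add hw (by norm_num)) (by norm_num)).add
    ((RV.muls hP hr (hr'.sub hw (by norm_num)) (by norm_num) (by norm_num)).add
      (RV.muls hP hr' (hr.sub hw (by norm_num)) (by norm_num) (by norm_num))))
    (by norm_num)).congr ?_
  push_cast
  ring

end Pool.Agent.Helper21.FX
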